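import Pool.Agent.H6.PkE

namespace Pool.Agent.Results.MP_4c107d_co.Finite

open Pool.Agent.H6.Pk Finset Pointwise

theorem result (n : ℕ) (hn : 1 ≤ n) :
    ∃ k0 : ℕ, ∀ k, k0 ≤ k → ∀ T : Fin k → SimpleGraph (Fin n ⊕ Fin n),
      (∀ i, (T i).IsTree ∧ T i ≤ completeBipartiteGraph (Fin n) (Fin n)) →
      ∃ φ : Fin k → Fin n ⊕ Fin n → Fin (2 * n - 1) ⊕ Fin k,
        (∀ i, Function.Injective (φ i)) ∧
        (∀ i u v, (T i).Adj u v →
          (completeBipartiteGraph (Fin (2 * n - 1)) (Fin k)).Adj (φ i u) (φ i v)) ∧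
        ∀ i j, i ≠ j →
          Disjoint (Sym2.map (φ i) '' (T i).edgeSet) (Sym2.map (φ j) '' (T j).edgeSet) := by
  haveI : NeZero n := ⟨by omega⟩
  have hA : Fintype.card (Fin (2 * n - 1)) + 1 = 2 * Fintype.card (Fin n) := by
    simp only [Fintype.card_fin]; omega
  obtain ⟨k0, hk0⟩ := family hA
  refine ⟨k0, fun k hk T hT => ?_⟩
  let ι : Fin n ↪ Fin (2 * n - 1) := Fin.castLEEmb (by omega)
  obtain ⟨I, G, _, _, U, σ, β, h1, h2, h3, h4⟩ := hk0 (univ.val.map fun i => nb ι (T i))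
    (fun S hS => by
      obtain ⟨i, -, rfl⟩ := Multiset.mem_map.1 hS
      exact nb_ok rfl hA ι _ (hT i).1 (hT i).2) (by simpa using hk)
  obtain ⟨e, he⟩ := equiv_of_map _ _ h1
  let g : G ≃ Fin k := Fintype.equivOfCardEq (h2.trans (Fintype.card_congr e).symm)
  refine ⟨fun i => Sum.map (fun x => σ (e i) (ι x)) (fun y => g (β (e i, y))), fun i => ?_,
    fun i u v huv => ?_, fun i j hij => ?_⟩
  · exact Sum.map_injective.2 ⟨(σ (e i)).injective.comp ι.injective,
      fun y y' h => h3 _ y y' (g.injective h)⟩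
  · have := (hT i).2 huv
    rcases u with u | u <;> rcases v with v | v <;> simp at this ⊢
  · rw [Set.disjoint_left]
    rintro _ ⟨a, ha, rfl⟩ ⟨b, hb, hab⟩
    obtain ⟨x, y, hxy, rfl⟩ := adj_cases (hT i).2 ha
    obtain ⟨x', y', hxy', rfl⟩ := adj_cases (hT j).2 hb
    simp only [Sym2.map_mk, Sum.map_inl, Sum.map_inr, Sym2.eq_iff, Sum.inl.injEq, Sum.inr.injEq,
      reduceCtorEq, false_and, or_false] at hab
    have hd := h4 (e j, y') (e i, y) (g.injective hab.2)
      fun h => hij (e.injective (Prod.mk.inj h).1).symm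
    have m1 : σ (e j) (ι x') ∈ σ (e j) • U (e j) y' :=
      smul_mem_smul_finset (by rw [he]; simp [nb, hxy'])
    have m2 : σ (e i) (ι x) ∈ σ (e i) • U (e i) y :=
      smul_mem_smul_finset (by rw [he]; simp [nb, hxy])
    exact disjoint_left.1 hd m1 (hab.1 ▸ m2)

end Pool.Agent.Results.MP_4c107d_co.Finite
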